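import Pool.Agent.H445.EllF

/-!
# MP_2ad15a_nt: the exact dimension of the set of the counterexamples for a given lattice

`L` is a pair of periods `ω₁, ω₂` (independent over `ℝ`), `L.lattice = ℤ ω₁ + ℤ ω₂`, and `℘[L]`,
`L.g₂`, `L.g₃` are Mathlib's Weierstrass function and invariants. For `m ≥ 1` let `F(n,m)` be the set
of the `n`-tuples `p` of complex numbers outside the lattice which are linearly independent over
`k = End(ℂ / L) ⊗ ℚ` and for which the transcendence degree of `ℚ(g₂, g₃, p, ℘(p), ζ(p))` is at most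
`2 n - m` (the counterexamples of defect at least `m`). The conjecture says that all these sets are
empty. For every lattice we prove the following unconditional relation between the size of these sets
and the existence of counterexamples of larger defect.

* The Hausdorff dimension of `F(n,m)` in `ℂ^n` is exactly `2 d`, where `d` is the largest number for
  which `F(n - d, m + d)` is not empty (`0` if `F(n,m)` is empty).
* `d ≤ (2 n - m - 1) / 3`, by a theorem of Schneider.
* `F(n,m)` is countable if and only if `F(n - 1, m + 1)` is empty. In particular `F(n,m)` is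
  countable for `2 n ≤ m + 3`; for instance all but countably many pairs `p₁, p₂`, independent over
  `k`, satisfy the inequality of the conjecture, for every lattice.
* For `d ≥ 1`, the conjecture with error `d`, that is the inequality `trdeg ≥ 2 n - d` for all `n` and
  all independent `p`, holds for the lattice if and only if for all `n` the set of all
  counterexamples `F(n,1)` has Hausdorff dimension at most `2 (d - 1)`. For `d = 1`: the error is at
  most one if and only if for every `n` there are only countably many counterexamples.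

## The proof (in `Pool.Agent.H445`)

Let `K` be a countable field which is closed under everything in sight (`Pool.Agent.Y685`). At a
point `p` let `δ` be the dimension of the space of the directions which are compatible with all the
algebraic relations over `K`. The points with a given `δ` have Hausdorff dimension at most `2 δ`
(`DimB`). Ax's theorem, applied to a chain of derivations, gives the rank `2 s + δ` over `K` for the
`s` points outside `K` (`EllB`), so that the points in `K` are a failure of defect `m + δ` (`EllC`).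
Algebraic points may be added (`EllD`). Conversely, `d` generic points may be added to a failure of
defect `m + d`.
-/

set_option autoImplicit false

open Set
open scoped PeriodPair

noncomputable section

namespace Pool.Agent.Results.MP_2ad15a_nt.DimensionFormula

open Pool.Agent.H445 (SM LevM BaseM FailM IndP IndE dimM countableM lowerM LevM_down LevM_bdd
  schneider mem_SM)
open Pool.Agent.TH813.Ell (kL)
open Pool.Agent.Y685 (EP clo)

/-- The Weierstrass zeta function `ζ(z) = ∑ (1/(z-l) + 1/l + z/l²)`, the sum over the lattice (the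
summand of `l = 0` is `1/z`, since `1/0 = 0` in Lean). -/
def ζ (L : PeriodPair) (z : ℂ) : ℂ :=
  ∑' l : L.lattice, (1 / (z - l) + 1 / l + z / l ^ 2)

/-- The numbers `g₂, g₃, pᵢ, ℘(pᵢ), ζ(pᵢ)`. -/
def numbers (L : PeriodPair) {n : ℕ} (p : Fin n → ℂ) : Set ℂ :=
  {L.g₂, L.g₃} ∪ {x | ∃ i, x = p i ∨ x = ℘[L] (p i) ∨ x = ζ L (p i)}

/-- `a` belongs to the field `End(ℂ / L) ⊗ ℚ`. -/
def IsMult (L : PeriodPair) (a : ℂ) : Prop :=
  ∃ m : ℕ, 0 < m ∧ ∀ w ∈ L.lattice, ((m : ℂ) * a) * w ∈ L.lattice

/-- The `n`-tuples of points outside the lattice which are linearly independent over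
`End(ℂ / L) ⊗ ℚ` and miss the bound `2 n` by at least `m`. -/
def Fails (L : PeriodPair) (n m : ℕ) : Set (Fin n → ℂ) :=
  {p | (∀ i, p i ∉ L.lattice) ∧
    (∀ a : Fin n → ℂ, (∀ i, IsMult L (a i)) → ∑ i, a i * p i = 0 → a = 0) ∧
    Algebra.trdeg ℚ (IntermediateField.adjoin ℚ (numbers L p)) + m ≤ ((2 * n : ℕ) : Cardinal)}

/-- The largest `d ≤ n` such that there is an `(n - d)`-tuple which misses the bound `2 (n - d)` by
at least `m + d` (zero if there is none). -/
def level (L : PeriodPair) (n m : ℕ) : ℕ := sSup {d | d ≤ n ∧ (Fails L (n - d) (m + d)).Nonempty}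

theorem FR_bot : Pool.Agent.Y685.FR ℚ = ⊥ := by
  rw [eq_bot_iff]
  rintro _ ⟨q, rfl⟩
  exact IntermediateField.mem_bot.2 ⟨q, rfl⟩

theorem numbers_eq {L : PeriodPair} {n : ℕ} {p : Fin n → ℂ} (hp : ∀ i, p i ∉ L.lattice)
    (t : Fin 0 → ℂ) :
    {L.g₂, L.g₃} ∪ (Pool.Agent.Y776.ET t ∪ EP L p) = numbers L p := by
  have h1 : Pool.Agent.Y776.ET t ∪ EP L p = EP L p := by
    apply Set.union_eq_self_of_subset_left
    rintro x (⟨i, -⟩ | ⟨i, -⟩) <;> exact i.elim0
  rw [h1]
  exact Pool.Agent.Y685.Numb_eq hp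

theorem trdeg_iff {S : Set ℂ} (m N : ℕ) :
    Algebra.trdeg ℚ (IntermediateField.adjoin ℚ S) + m ≤ (N : Cardinal) ↔
    (Pool.Agent.TH813.Rel.MK (⊥ : IntermediateField ℚ ℂ)).eRk S + m ≤ (N : ℕ∞) := by
  have h2 : Cardinal.toENat (Algebra.trdeg ℚ (IntermediateField.adjoin ℚ S)) =
      (Pool.Agent.TH813.Rel.MK ℚ).eRk S := Pool.Agent.TH813.Rel.toENat_trdeg (k := ℚ) _
  rw [← Cardinal.toENat_le_natCast, map_add, h2, ← Pool.Agent.Y685.MK_FR ℚ, FR_bot]
  simp

theorem mem_Fails {L : PeriodPair} {n m : ℕ} {p : Fin n → ℂ} (t : Fin 0 → ℂ) : p ∈ Fails L n m ↔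
    FailM L {L.g₂, L.g₃} ⊥ ⊥ 0 n 0 m p t := by
  constructor
  · rintro ⟨h1, h2, h3⟩
    refine ⟨h1, fun a ha h0 => h2 a ha ((Submodule.mem_bot _).1 h0),
      fun q _ => Subsingleton.elim _ _, ?_⟩
    rw [numbers_eq h1]
    have := (trdeg_iff m (2 * n)).1 h3
    simpa using this
  · rintro ⟨h1, h2, -, h3⟩
    refine ⟨h1, fun a ha h0 => h2 a ha ((Submodule.mem_bot _).2 h0), ?_⟩
    rw [numbers_eq h1] at h3
    rw [trdeg_iff]
    simpa using h3

theorem Fails_eq (L : PeriodPair) (n m : ℕ) :
    Fails L n m = SM L {L.g₂, L.g₃} ⊥ ⊥ 0 n 0 m := by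
  ext p
  exact mem_Fails (fun i => p (Fin.natAdd n i))

theorem base (L : PeriodPair) : BaseM L {L.g₂, L.g₃} ⊥ ⊥ :=
  ⟨Set.toFinite _, Pool.Agent.Y685.subset_clo (by simp), Pool.Agent.Y685.subset_clo (by simp),
    inferInstance, inferInstance⟩

theorem Lev_eq (L : PeriodPair) (n m : ℕ) : LevM L {L.g₂, L.g₃} ⊥ ⊥ 0 n 0 m =
    {d | d ≤ n ∧ (Fails L (n - d) (m + d)).Nonempty} := by
  ext d
  constructor
  · rintro ⟨b, a, h1, h2, rfl, h3⟩
    obtain rfl : a = 0 := by omega
    exact ⟨h1, by rw [Fails_eq]; exact h3⟩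
  · rintro ⟨h1, h2⟩
    rw [Fails_eq] at h2
    exact ⟨d, 0, h1, le_rfl, rfl, h2⟩

theorem dim_eq (L : PeriodPair) (n m : ℕ) : dimH (Fails L n m) = (2 * level L n m : ℕ) := by
  rw [Fails_eq, level, ← Lev_eq]
  exact dimM (base L)

theorem lower {L : PeriodPair} {n m d : ℕ} (hd : d ≤ n) (h : (Fails L (n - d) (m + d)).Nonempty) :
    ((2 * d : ℕ) : ENNReal) ≤ dimH (Fails L n m) := by
  rw [Fails_eq]
  apply lowerM (base L)
  rw [Lev_eq]
  exact ⟨hd, h⟩

theorem bound {L : PeriodPair} {n m : ℕ} (hm : 1 ≤ m) {p : Fin n → ℂ} (hp : p ∈ Fails L n m) :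
    m + 1 ≤ 2 * n := by
  obtain ⟨h1, -, -, h2⟩ := (mem_Fails ![]).1 hp
  have h4 : m ≤ 0 + 2 * n + 0 := by
    have := (le_add_self : (m : ℕ∞) ≤ _ + m).trans h2
    exact_mod_cast this
  have h0 : 0 < n := by omega
  have h5 := schneider (h1 ⟨0, h0⟩) (S := {L.g₂, L.g₃} ∪ (Pool.Agent.Y776.ET ![] ∪ EP L p))
    (Or.inl (by simp)) (Or.inl (by simp)) (Or.inr (Or.inr (Or.inl ⟨_, rfl⟩)))
    (Or.inr (Or.inr (Or.inr (Or.inr ⟨_, rfl⟩))))
  have h3 : ((1 + m : ℕ) : ℕ∞) ≤ ((0 + 2 * n + 0 : ℕ) : ℕ∞) := by
    rw [Nat.cast_add, Nat.cast_one]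
    exact (add_le_add h5 le_rfl).trans h2
  have h6 : 1 + m ≤ 0 + 2 * n + 0 := by exact_mod_cast h3
  omega

theorem bdd {n : ℕ} {P : ℕ → Prop} : BddAbove {d | d ≤ n ∧ P d} := ⟨n, fun _ h => h.1⟩

theorem level_le {L : PeriodPair} {n m : ℕ} (hm : 1 ≤ m) : level L n m ≤ (2 * n - m - 1) / 3 := by
  rcases Set.eq_empty_or_nonempty {d | d ≤ n ∧ (Fails L (n - d) (m + d)).Nonempty} with h | h
  · rw [level, h, csSup_empty]
    exact Nat.zero_le _
  · obtain ⟨h1, z, hz⟩ := Nat.sSup_mem h bdd
    have h2 := bound (by omega) hz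
    change level L n m ≤ n at h1
    change m + level L n m + 1 ≤ 2 * (n - level L n m) at h2
    omega

theorem countable_iff {L : PeriodPair} {n m : ℕ} (hn : 1 ≤ n) :
    (Fails L n m).Countable ↔ Fails L (n - 1) (m + 1) = ∅ := by
  rw [Fails_eq, countableM (base L), Lev_eq]
  constructor
  · intro h
    by_contra hne
    exact h ⟨hn, nonempty_iff_ne_empty.2 hne⟩
  · rintro h ⟨-, h2⟩
    rw [h] at h2
    exact not_nonempty_empty h2

theorem result (L : PeriodPair) :
    -- the dimension
    (∀ n m : ℕ, 1 ≤ m →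
      dimH (Fails L n m) = (2 * level L n m : ℕ) ∧ level L n m ≤ (2 * n - m - 1) / 3) ∧
    -- countability
    (∀ n m : ℕ, 1 ≤ n → 1 ≤ m →
      ((Fails L n m).Countable ↔ Fails L (n - 1) (m + 1) = ∅) ∧
      (2 * n ≤ m + 3 → (Fails L n m).Countable)) ∧
    -- the conjecture with bounded error
    (∀ d : ℕ, 1 ≤ d →
      ((∀ n, Fails L n (d + 1) = ∅) ↔ ∀ n, dimH (Fails L n 1) ≤ (2 * (d - 1) : ℕ))) ∧
    ((∀ n, Fails L n 2 = ∅) ↔ ∀ n, (Fails L n 1).Countable) := by
  refine ⟨fun n m hm => ⟨dim_eq L n m, level_le hm⟩, fun n m hn hm => ⟨countable_iff hn, fun h => ?_⟩,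
    fun d hd => ?_, ?_⟩
  · rw [countable_iff hn, Set.eq_empty_iff_forall_notMem]
    intro z hz
    have := bound (by omega) hz
    omega
  · constructor
    · intro h n
      rw [dim_eq]
      have h1 : level L n 1 ≤ d - 1 := by
        rcases Set.eq_empty_or_nonempty {e | e ≤ n ∧ (Fails L (n - e) (1 + e)).Nonempty} with
          h0 | h0
        · rw [level, h0, csSup_empty]
          exact Nat.zero_le _
        · obtain ⟨h1, z, hz⟩ := Nat.sSup_mem h0 bdd
          by_contra hcon
          have h2 := (mem_Fails (fun i => i.elim0)).2 (((mem_Fails (fun i => i.elim0)).1 hz).mono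
            (m := d + 1) (by
              change d + 1 ≤ 1 + level L n 1
              omega))
          rw [h] at h2
          exact h2
      exact_mod_cast Nat.mul_le_mul_left 2 h1
    · intro h s
      by_contra hne
      have h1 := lower (L := L) (n := s + d) (m := 1) (d := d) (by omega) (by
        rw [Nat.add_sub_cancel, add_comm 1 d]
        exact nonempty_iff_ne_empty.2 hne)
      have h2 := h1.trans (h (s + d))
      have h3 : 2 * d ≤ 2 * (d - 1) := by exact_mod_cast h2
      omega
  · constructor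
    · intro h n
      rcases Nat.eq_zero_or_pos n with rfl | hn
      · exact Set.countable_univ.mono (subset_univ _)
      · exact (countable_iff hn).2 (h (n - 1))
    · intro h n
      exact (countable_iff (n := n + 1) (m := 1) (by omega)).1 (h (n + 1))

end Pool.Agent.Results.MP_2ad15a_nt.DimensionFormula
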